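import Pool.Agent.FS.WishTr.Main

/-!
The product inequality for the weighted traces `tr (A i * X i i)` of the diagonal blocks of a
Wishart matrix with a real number of degrees of freedom.
-/

open MeasureTheory Pool.Agent.Lib.MP_9d9c13_pr Pool.Agent.FS.WishTr

namespace Pool.Agent.Results.MP_9d9c13_pr.TracePower

theorem result (d : ℕ) (_hd : 1 ≤ d) (p : Fin d → ℕ) (_hp : ∀ i, 1 ≤ p i)
    (α : ℝ) (hα : ((∑ i, p i : ℕ) : ℝ) - 1 < α)
    (S : Matrix (Fin (∑ i, p i)) (Fin (∑ i, p i)) ℝ) (hS : S.PosDef)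
    (A : ∀ i, Matrix (Fin (p i)) (Fin (p i)) ℝ) (hA : ∀ i, (A i).PosSemidef)
    (ν : Fin d → ℝ) (hν : ∀ i, 0 ≤ ν i) :
    ∏ i, ∫ x, (A i * diagBlock p (symMat x) i).trace ^ ν i ∂wishart α S
      ≤ ∫ x, ∏ i, (A i * diagBlock p (symMat x) i).trace ^ ν i ∂wishart α S := by
  choose f hf using exists_blk_equiv p
  simp only [hf, trace_reindex]
  exact trace_integral (monotone_blkOf p) hα hS hν fun i => (hA i).submatrix _

end Pool.Agent.Results.MP_9d9c13_pr.TracePower
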