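import Pool.Agent.Lib.MP_9d9c13_pr.Sum

/-!
The product inequality for the determinants of the diagonal blocks of
`B + X₁ + ⋯ + X_K + g₁ g₁ᵀ + ⋯ + g_J g_Jᵀ`, where `B` is a fixed positive semidefinite matrix,
the `X_k` are Wishart matrices, the `g_j` are centred Gaussian vectors, and all are independent.
The case `K = 1`, `J = 0`, `B = 0` is the inequality for one Wishart matrix.
-/

open MeasureTheory ProbabilityTheory Pool.Agent.Lib.MP_9d9c13_pr

namespace Pool.Agent.Results.MP_9d9c13_pr.WishartSumProduct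

theorem result (d : ℕ) (_hd : 1 ≤ d) (p : Fin d → ℕ) (_hp : ∀ i, 1 ≤ p i)
    (B : Matrix (Fin (∑ i, p i)) (Fin (∑ i, p i)) ℝ) (hB : B.PosSemidef)
    (K : ℕ) (α : Fin K → ℝ) (hα : ∀ k, ((∑ i, p i : ℕ) : ℝ) - 1 < α k)
    (S : Fin K → Matrix (Fin (∑ i, p i)) (Fin (∑ i, p i)) ℝ) (hS : ∀ k, (S k).PosDef)
    (J : ℕ) (T : Fin J → Matrix (Fin (∑ i, p i)) (Fin (∑ i, p i)) ℝ)
    (_hT : ∀ j, (T j).PosSemidef)
    (ν : Fin d → ℝ) (hν : ∀ i, 0 ≤ ν i) :
    ∏ i, ∫ ω, (diagBlock p (B + ∑ k, symMat (ω.1 k)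
            + ∑ j, Matrix.vecMulVec (ω.2 j).ofLp (ω.2 j).ofLp) i).det ^ ν i
          ∂(Measure.pi fun k => wishart (α k) (S k)).prod
            (Measure.pi fun j => multivariateGaussian 0 (T j))
      ≤ ∫ ω, ∏ i, (diagBlock p (B + ∑ k, symMat (ω.1 k)
            + ∑ j, Matrix.vecMulVec (ω.2 j).ofLp (ω.2 j).ofLp) i).det ^ ν i
          ∂(Measure.pi fun k => wishart (α k) (S k)).prod
            (Measure.pi fun j => multivariateGaussian 0 (T j)) := by
  simp only [det_diagBlock]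
  exact ((good_sum (monotone_blkOf p) hν hB hα hS T).integral hν).2.2

end Pool.Agent.Results.MP_9d9c13_pr.WishartSumProduct
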